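import Mathlib
import Pool.Agent.helper95.FI.SpecV
import Pool.Agent.helper1.UN.SpecT
import Pool.Agent.helper85.BVP.Tau

/-!
# Project DF (MP_60f069_nt): pairs of deficiency at least one (helper7)

THEOREM. Let all prime factors of `C(n+k, k)` be larger than `k`, `k ≤ n` (the deficiency is defined). If `n + j` has all its prime factors `≤ k`, then `n + j` divides `j C(k, j)`.
For every `A` and all large `k`: `n > k^A`, `A < j ≤ k - A`, and the deficiency is `≤ k / A`.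

RULES. Row `XXX`: file `Pool/Agent/<seat>/DF/XXX.lean`, `import Pool.Agent.helper7.DF.Spec` (plus library files named in the docstring), `set_option autoImplicit false`,
`namespace Pool.Agent.DFO`, `theorem XXX (h1 : YYY_stmt) ... : XXX_stmt` with any other `_stmt` of this file as hypotheses (no circles). Auxiliary lemmas private or prefixed `XXX_`.
No straight double quotes, no convert / congr!, no native_decide. Land, note = DONE + path, one line to helper7. A doubt about a statement: tell helper7 at once.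

Library. `Pool.Agent.LDH.ee x = exp(2πix)`; `Pool.Agent.LDH.KL : KL_stmt` (Kusmin–Landau, `import Pool.Agent.helper18.LDH.KL`); `Pool.Agent.UN.KDT : KDT_stmt` (k-th derivative test for
iterated differences `Pool.Agent.UN.dd`, `import Pool.Agent.helper1.UN.KDT`; its `ee` is `Pool.Agent.LDH.ee` by `rfl`); `Pool.Agent.FI.VGI : VGI_stmt` (Vaughan's identity, `import Pool.Agent.helper90.FI.VGI`);
`Pool.Agent.FI.THS : THS_stmt` (prime number theorem with error, `q = 1`, `import Pool.Agent.helper99.FI.THS`); `Pool.Agent.helper85.BVP.sum_tau_sq_le`, `harm_le`, `tau`.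
-/

set_option autoImplicit false

open Finset

namespace Pool.Agent.DFO

open Pool.Agent.LDH (ee)
open Pool.Agent.helper85.BVP (tau)

/-- The data of the problem: `n + i = a_i b_i` for `1 ≤ i ≤ k`, all prime factors of `b_i` are larger than `k`, and the product of the `a_i` is `k!`. -/
structure Good (n k : ℕ) (a b : ℕ → ℕ) : Prop where
  eq : ∀ i ∈ Icc 1 k, n + i = a i * b i
  big : ∀ i ∈ Icc 1 k, ∀ p : ℕ, p.Prime → p ∣ b i → k < p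
  prod : ∏ i ∈ Icc 1 k, a i = k.factorial

/-- A carry at the first digit in some prime base `p ≤ k`. -/
def Hit (n k : ℕ) : Prop := ∃ p : ℕ, p.Prime ∧ p ≤ k ∧ p ≤ n % p + k % p

/-! ## Part 1: elementary -/

/-- **NCY** (short, medium). uses: nothing. No carries. `C(n+k,k) k! = ∏ (n+i)` (`Nat.ascFactorial`, `Nat.ascFactorial_eq_factorial_mul_choose` or so) `= ∏ a_i ∏ b_i = k! ∏ b_i`, so `C(n+k,k) = ∏ b_i`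
and a prime `p ≤ k` does not divide it. Kummer (`Nat.factorization_choose'`: the exponent of `p` in `(n+k).choose k` is the number of `i ∈ Ico 1 b` with `p^i ≤ k % p^i + n % p^i`, for `b > log p (n+k)`; take `b` also larger than `e`). -/
def NCY_stmt : Prop := ∀ (n k : ℕ) (a b : ℕ → ℕ), 1 ≤ k → Good n k a b → ∀ p : ℕ, p.Prime → p ≤ k →
  ∀ e : ℕ, 1 ≤ e → n % p ^ e + k % p ^ e < p ^ e

/-- **DIV** (medium). uses: `NCY_stmt`. `n + j = a_j` divides `k!`, so its primes are `≤ k`. It is enough that `v_p(n+j) ≤ v_p(j C(k,j))` for all primes `p ≤ k`; `j C(k,j) (j-1)! (k-j)! = k!`, so by Legendre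
(`Nat.Prime.multiplicity_factorial`, `Nat.factorization_factorial`, `sub_one_mul_padicValNat_factorial`...) `v_p(j C(k,j)) = ∑_{e ≥ 1} (⌊k/p^e⌋ - ⌊(j-1)/p^e⌋ - ⌊(k-j)/p^e⌋)`, all terms `≥ 0`
(as `(j-1) + (k-j) ≤ k`). For `1 ≤ e ≤ v_p(n+j)`, `q = p^e ∣ n + j`, the term is `≥ 1`: NCY says `⌊(n+k)/q⌋ = ⌊n/q⌋ + ⌊k/q⌋`; and `⌊(n+k)/q⌋ - ⌊n/q⌋ = ⌊(k-j)/q⌋ + ⌊(j-1)/q⌋ + 1` because `q ∣ n + j`
(`(n+k) = (n+j) + (k-j)` and `n = (n+j) - 1 - (j-1)`, so `⌊n/q⌋ = (n+j)/q - 1 - ⌊(j-1)/q⌋`). -/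
def DIV_stmt : Prop := ∀ (n k : ℕ) (a b : ℕ → ℕ), 1 ≤ k → Good n k a b → ∀ j ∈ Icc 1 k, b j = 1 → (n + j) ∣ j * k.choose j

/-- **LOC** (short). uses: nothing. `j C(k,j) = k C(k-1,j-1) ≤ k k^(j-1)` and `C(k-1,j-1) = C(k-1,k-j) ≤ k^(k-j)` (`Nat.choose_le_pow`...). -/
def LOC_stmt : Prop := ∀ k j : ℕ, 1 ≤ j → j ≤ k → j * k.choose j ≤ k ^ j ∧ j * k.choose j ≤ k ^ (k + 1 - j)

/-! ## Part 2: small `n` -/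

/-- **SML** (medium). uses: nothing (library `THS`). `q = 1`, `x = k`, `θ(u) = ∑_{l ∈ (0,u]} th l = u + O(k/log^A k)`, `A = 2C + 3`, for `u ≤ 2k`. Let `θ = n/k ≥ 1`, `f = ⌊θ⌋ = n / k`, and `m = f + 2` if `2 (n % k) ≤ k`, otherwise `m = f + 3`. Then
`2 (k (m-1) - n) ≥ k` (`k (m-1) - n = k - n % k ≥ k/2`, or `= 2k - n % k ≥ k`), `m - 1 ≤ 2θ` (first case: `f + 1 ≤ 2θ`; second: `f + 2 ≤ 2 f + 1 ≤ 2θ` as `θ > f + 1/2`), `n + k ≤ m k`. The interval `(n/(m-1), (n+k)/m]` has length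
`(k(m-1) - n)/(m(m-1)) ≥ k/(2m²) ≥ k/(2 (log^C k + 3)²)`, so for large `k` it contains a prime `p` (floors: `u₁ = ⌊n/(m-1)⌋`, `u₂ = ⌊(n+k)/m⌋ ≤ k`, `u₂ - u₁ ≥ length - 1`). `p ≤ (n+k)/m ≤ k`, `2p > 2n/(m-1) ≥ k`, so `k % p = k - p`; `n < (m-1) p` gives
`n / p ≤ m - 2`, `n % p ≥ n - (m-2) p`, so `n % p + k % p ≥ n + k - (m-1) p ≥ p`. -/
def SML_stmt : Prop := ∀ C : ℕ, ∃ k₀ : ℕ, ∀ k : ℕ, k₀ ≤ k → ∀ n : ℕ, k ≤ n → (n : ℝ) ≤ k * Real.log k ^ C → Hit n k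

/-! ## Part 3: exponential sums -/

/-- **IDD** (short, medium). uses: nothing. By induction on `r`: `dd r (fun l => y / l) n = (-1)^r r! y / ∏_{i ≤ r} (n + i)` for `n ≥ 1` (generalise: `dd (r+1) f = dd r (fun m => f (m+1) - f m)`; it is easier to show first
`dd (r+1) f n = dd r f (n+1) - dd r f n`, by induction for all `f`). The bounds: all `r + 1` factors are in `[N, 2N]`. -/
def IDD_stmt : Prop := ∀ (r N n : ℕ) (y : ℝ), 1 ≤ N → 0 ≤ y → N ≤ n → n + r ≤ 2 * N →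
  (r.factorial : ℝ) * y / (2 * N) ^ (r + 1) ≤ (-1) ^ r * Pool.Agent.UN.dd r (fun l : ℕ => y / (l : ℝ)) n ∧
  (-1) ^ r * Pool.Agent.UN.dd r (fun l : ℕ => y / (l : ℝ)) n ≤ (r.factorial : ℝ) * y / (N : ℝ) ^ (r + 1)

/-- **KSM** (medium). uses: `IDD_stmt` (library `KL`, `KDT`). `N ≤ C₀`: trivial (`≤ N ≤ C N^(1-δ)`). (i) `y ≤ N^(3/2)`: KL (increasing or decreasing differences) with `f l = y / l`: `f (l+1) - f l = -y/(l(l+1))` is in `[-y/N², -y/(4N²)]`, `y/N² ≤ N^(-1/2) ≤ 1/2`; take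
`m = -1` and `l = y/(4N²)`: the bound is `2/l = 8 N²/y`. (ii) `N^(r-1/2) < y ≤ N^(r+1/2)` with `2 ≤ r ≤ A`: KDT for `f = (-1)^r y / l` (for odd `r` conjugate: `ee (-x) = conj (ee x)`, same norm; `dd r (-f) = - dd r f`), lower bound `l₀ = r! y/(2N)^(r+1)`,
`α = 2^(r+1)` (IDD). `l₀` is between `c N^(-3/2)` and `C N^(-1/2)`, `b - a ≤ N`, so with `u = 2^r - 2`: `‖S‖ ≤ C' (N N^(-1/(2u)) + N^(1 - 4/2^r) N^(3/(2u)))`; `3/(2u) ≤ 3/2^r` as `2^r ≤ 2u`, so the second exponent is `≤ 1 - 1/2^r`. `δ = 2^(-A-1)` (`1/(2u) ≥ 2^(-r-1)`), finitely many `r`: take the maximum of the constants. -/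
def KSM_stmt : Prop := ∀ A : ℕ, ∃ δ C : ℝ, 0 < δ ∧ δ ≤ 1 ∧ 1 ≤ C ∧ ∀ (N a b : ℕ) (y : ℝ), 1 ≤ N → N ≤ a → a ≤ b → b ≤ 2 * N →
  (N : ℝ) ≤ y → y ≤ (N : ℝ) ^ A → ‖∑ l ∈ Ioc a b, ee (y / l)‖ ≤ C * ((N : ℝ) ^ 2 / y + (N : ℝ) ^ (1 - δ))

/-- **TID** (medium). uses: `KSM_stmt`. `k < 65536`: trivial (the number of terms is `≤ (b-a)/d + 1 ≤ 2 k/d`, `k^(-δ) ≥ 65536^(-1)`). Otherwise `N = a / d ≥ a/d - 1 ≥ k^(1/4)/2 - 1 ≥ k^(1/8)`, `b / d ≤ 2N + 1` (one extra term, `1 ≤ (k/d) k^(-1/4)`), `y = x/d`,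
`N ≤ k/d ≤ y ≤ k^A ≤ N^(8A)`: KSM for `8A`. `N²/y ≤ (k/d)(k/x)`, `N^(1-δ') ≤ (k/d)^(1-δ') ≤ (k/d) k^(-δ'/4)`. Take `δ = δ'/4 ≤ 1/4`. -/
def TID_stmt : Prop := ∀ A : ℕ, ∃ δ C : ℝ, 0 < δ ∧ δ ≤ 1 / 4 ∧ 1 ≤ C ∧ ∀ (k d a b : ℕ) (x : ℝ), 1 ≤ d → (d : ℝ) ≤ (k : ℝ) ^ (3 / 4 : ℝ) → a ≤ b → b ≤ k → k ≤ 2 * a →
  (k : ℝ) ≤ x → x ≤ (k : ℝ) ^ A → ‖∑ l ∈ Ioc (a / d) (b / d), ee (x / (d * l))‖ ≤ C * (k / d) * (k / x + (k : ℝ) ^ (-δ))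

/-- **LGA** (short). uses: nothing. Abel summation (`log` is nondecreasing, `Real.log 0 = 0`): `∑_{a<l≤b} log l f l = log b F(b) - ∑_{a<l<b} (log (l+1) - log l) F(l)`, `F(c) = ∑_{a<l≤c} f l`. -/
def LGA_stmt : Prop := ∀ (f : ℕ → ℂ) (a b : ℕ) (B : ℝ), a ≤ b → (∀ c : ℕ, a ≤ c → c ≤ b → ‖∑ l ∈ Ioc a c, f l‖ ≤ B) →
  ‖∑ l ∈ Ioc a b, (Real.log l : ℂ) * f l‖ ≤ 2 * B * Real.log b

/-- **PRS** (medium). uses: `KSM_stmt`. The inner sums of the type II sums: two different `l₁, l₂ ≤ L = k/M` (real), the sum over an interval of `m` in `(M, 2M]`. `y = x |1/l₁ - 1/l₂| = x Δ/(l₁ l₂) ≤ x ≤ k^A ≤ M^(4A)`, `Δ = |l₁ - l₂| ≥ 1`; the sign: conjugate.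
`y ≥ M`: KSM for `4A`: `≤ C (M²/y + M^(1-δ'))`. `y < M`: trivial `≤ M ≤ M²/y`. `M²/y = M² l₁ l₂/(xΔ) ≤ M² L²/(xΔ) = k²/(xΔ)`. `M^(1-δ') ≤ M k^(-δ'/4)`; `δ = δ'/4`. -/
def PRS_stmt : Prop := ∀ A : ℕ, ∃ δ C : ℝ, 0 < δ ∧ δ ≤ 1 / 4 ∧ 1 ≤ C ∧ ∀ (k M l₁ l₂ a b : ℕ) (x : ℝ), 1 ≤ k → (k : ℝ) ^ (1 / 4 : ℝ) ≤ M → M ≤ a → a ≤ b → b ≤ 2 * M →
  1 ≤ l₁ → 1 ≤ l₂ → l₁ ≠ l₂ → M * l₁ ≤ k → M * l₂ ≤ k → (k : ℝ) ≤ x → x ≤ (k : ℝ) ^ A →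
  ‖∑ m ∈ Ioc a b, ee (x / (m * l₁) - x / (m * l₂))‖ ≤ C * ((k : ℝ) ^ 2 / (x * |(l₁ : ℝ) - l₂|) + M * (k : ℝ) ^ (-δ))

/-- **TII** (medium). uses: `PRS_stmt` (library `sum_tau_sq_le`, `harm_le`). `L = k / M`. Cauchy–Schwarz in `m`: `‖S‖² ≤ (∑ α²) ∑_{m ∈ (M,2M]} ‖∑_{l ∈ (a/m, b/m]} β_l ee(x/(ml))‖²`, `∑ α² ≤ 4 M log² k`; all `l` satisfy `1 ≤ l ≤ b/m`, so `M l ≤ m l ≤ k`. Open the square:
`∑_{l₁, l₂} β_{l₁} β_{l₂} ∑_m ee(x/(m l₁) - x/(m l₂))`, the `m ∈ (M, 2M]` with `a < m l_i ≤ b` (`l ∈ Ioc (a/m) (b/m) ↔ a < m l ≤ b`) form an interval. Diagonal: `≤ M ∑ β²`. Off the diagonal by PRS and `|β_{l₁} β_{l₂}| ≤ (β_{l₁}² + β_{l₂}²)/2`: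
`≤ ∑_{l₁} β_{l₁}² ∑_{l₂ ≠ l₁, l₂ ≤ k/M} C (k²/(x|l₁-l₂|) + M k^(-δ)) ≤ (∑ β²) C (2 (k²/x)(1 + log k) + k k^(-δ))`. `∑_{l ≤ k/M} β² ≤ ∑ tau² ≤ (k/M)(1+log k)³`, `M ≤ k k^(-1/4)`. So `‖S‖² ≤ C' k² (1+log k)^6 (k/x + k^(-δ))`; square root, `√(u+v) ≤ √u + √v`. -/
def TII_stmt : Prop := ∀ A : ℕ, ∃ (δ C : ℝ) (B : ℕ), 0 < δ ∧ δ ≤ 1 / 4 ∧ 1 ≤ C ∧ ∀ (k M a b : ℕ) (x : ℝ) (α β : ℕ → ℝ), 2 ≤ k → (k : ℝ) ^ (1 / 4 : ℝ) ≤ M → (M : ℝ) ≤ (k : ℝ) ^ (3 / 4 : ℝ) →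
  a ≤ b → b ≤ k → (k : ℝ) ≤ x → x ≤ (k : ℝ) ^ A → (∀ m ∈ Ioc M (2 * M), |α m| ≤ 2 * Real.log k) → (∀ l, |β l| ≤ tau l) →
  ‖∑ m ∈ Ioc M (2 * M), (α m : ℂ) * ∑ l ∈ Ioc (a / m) (b / m), (β l : ℂ) * ee (x / (m * l))‖ ≤
    C * k * (1 + Real.log k) ^ B * ((k / x) ^ (1 / 2 : ℝ) + (k : ℝ) ^ (-δ))

/-- **VAU** (medium). uses: `TID_stmt LGA_stmt TII_stmt` (library `VGI`). `k < k₁` (constant): trivial (`∑ Λ ≤ k log k`). `U = V = ⌊k^(1/3)⌋₊ ≥ 1`, `a ≥ k/2 > U`, VGI for each `n ∈ (a, b]`; regroup by `d` resp. `q`, `m` (`n = d l`, `l ∈ Ioc (a/d) (b/d)`; see `sum_divisors_swap` in helper85/BVP/Tau for the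
method). (1) `∑_{d ≤ V} μ(d) ∑_l log(l) ee(x/(dl))` (`log (n/d) = log l`): TID for all end points (`c = (c d)/d`, `a < c d ≤ b` if `a/d < c ≤ b/d`) and LGA: `≤ ∑_{d ≤ V} 2 C (k/d)(..) log k ≤ 2C k (1+log k)² (..)`. (2) `cc U V q = 0` for `q > UV`, `UV ≤ k^(2/3) ≤ k^(3/4)`,
`|cc| ≤ log k`: TID. (3) `al V l = 0` for `l ≤ V`, so only `m ≤ k/V ≤ 2 k^(2/3)`; cover `(U, k/V]` by the dyadic blocks `(M, 2M]`, `M = U 2^i`, `i ≤ 2 log k + 1`, `k^(1/4) ≤ U ≤ M ≤ k/V ≤ k^(3/4)` for large `k` (if a block goes beyond `k/V` nothing changes: those terms are `0`);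
TII with `α m = Λ(m) ≤ log (2M) ≤ 2 log k`, `β l = al V l`, `|al| ≤ #divisors = tau`. -/
def VAU_stmt : Prop := ∀ A : ℕ, ∃ (δ C : ℝ) (B : ℕ), 0 < δ ∧ 1 ≤ C ∧ ∀ (k a b : ℕ) (x : ℝ), 2 ≤ k → a ≤ b → b ≤ k → k ≤ 2 * a → (k : ℝ) ≤ x → x ≤ (k : ℝ) ^ A →
  ‖∑ m ∈ Ioc a b, (ArithmeticFunction.vonMangoldt m : ℂ) * ee (x / m)‖ ≤ C * k * (1 + Real.log k) ^ B * ((k / x) ^ (1 / 2 : ℝ) + (k : ℝ) ^ (-δ))

/-! ## Part 4: the end -/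

/-- **MAI** (medium). uses: `VAU_stmt` (library `THS`). `C₀ = 2B + 4`. `I = (a, b]`, `a = ⌊11k/20⌋₊`, `b = ⌊3k/5⌋₊`. For a prime `p ∈ I`: `k % p = k - p ≥ (2/3) p` (`5p ≤ 3k`; `p > k/2`). Let `T(θ) = 1/2 + cos(2π(θ - 2/3))`; `T(θ) > 0` implies `fract θ > 1/3`. If `T(n/p) > 0` then
`n % p = p fract(n/p) > p/3`, so `n % p + k % p ≥ p`: `Hit`. Suppose `T(n/p) ≤ 0` for all primes `p ∈ I`. Then `∑_{m ∈ I} Λ(m) T(n/m) ≤ (3/2) ∑_{prime powers, not primes} Λ(m) ≤ (3/2) √k (1 + log k)²` (Mathlib: `Chebyshev.psi - theta`, or: at most `√k` values for each exponent `2 ≤ j ≤ 2 log k`). On the other hand the sum is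
`(1/2) ∑_{m ∈ I} Λ(m) + Re (ee(-2/3) ∑ Λ(m) ee(n/m)) ≥ (1/2)(1/20)k - 2 - o(k) - ‖..‖` (THS with `q = 1`: `∑_{m ∈ I} Λ ≥ ∑_{p ∈ I} log p = b - a + O(k/log k)`), and VAU with `x = n`: `(k/n)^(1/2) ≤ (log k)^(-B-2)`, so `‖..‖ ≤ C k ((1+log k)^B (log k)^(-B-2) + (1 + log k)^B k^(-δ)) = o(k)`. Contradiction for large `k`. -/
def MAI_stmt : Prop := ∀ A : ℕ, ∃ C₀ k₀ : ℕ, ∀ k : ℕ, k₀ ≤ k → ∀ n : ℕ, k * Real.log k ^ C₀ ≤ (n : ℝ) → n ≤ k ^ A → Hit n k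

/-- **SUP** (short). uses: `SML_stmt MAI_stmt`. `C = C₀`. -/
def SUP_stmt : Prop := ∀ A : ℕ, ∃ k₀ : ℕ, ∀ k : ℕ, k₀ ≤ k → ∀ n : ℕ, k ≤ n → n ≤ k ^ A → Hit n k

/-- **FIN** (short, medium). uses: `NCY_stmt DIV_stmt LOC_stmt SUP_stmt`. `K = max 2 (k₀ of SUP)`. `n ≤ k^A` gives `Hit`, which contradicts NCY with `e = 1`. `n + j ∣ j C(k,j) > 0`, so `k^A < n + j ≤ k^j` and `≤ k^(k+1-j)` (LOC): `A < j`, `A < k + 1 - j`. Number: `J = {j : b j = 1}`;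
`(k^A)^#J ≤ ∏_{j ∈ J} (n+j) = ∏_{j ∈ J} a_j ≤ ∏ a_i = k! ≤ k^k` (all `a_i ≥ 1`), `k ≥ 2`: `A #J ≤ k`. -/
def FIN_stmt : Prop := ∀ A : ℕ, ∃ K : ℕ, ∀ (n k : ℕ) (a b : ℕ → ℕ), 1 ≤ k → k ≤ n → Good n k a b → K ≤ k →
  k ^ A < n ∧ (∀ j ∈ Icc 1 k, b j = 1 → A < j ∧ j + A ≤ k) ∧ A * #{j ∈ Icc 1 k | b j = 1} ≤ k

/-- **FNT** (short). uses: `DIV_stmt FIN_stmt`. `k < K` (by FIN), and `n ≤ n + j ≤ j C(k,j) ≤ k 2^k` is bounded. -/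
def FNT_stmt : Prop := ∀ A : ℕ, {z : ℕ × ℕ | 1 ≤ z.2 ∧ z.2 ≤ z.1 ∧ ∃ a b : ℕ → ℕ, Good z.1 z.2 a b ∧
  ∃ j ∈ Icc 1 z.2, b j = 1 ∧ (j ≤ A ∨ z.2 < j + A)}.Finite

end Pool.Agent.DFO
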