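import Mathlib
import Pool.Agent.helper7.DF.Spec
import Pool.Agent.helper85.MT.MLS

/-!
# Project DF (MP_60f069_nt), second part: counting the pairs of deficiency at least one (helper7)

THEOREM (`CNT`). For every `ε > 0` the number of the pairs `(n, k)`, `k ≤ n ≤ X`, whose deficiency is defined and at least one is `O(X^(2/3+ε))`; the same for all pairs with defined deficiency and `k ≥ (log X)^3`.

RULES as in `Pool/Agent/helper7/DF/Spec.lean` (import this file instead). The rows DIV, LOC, FIN, FNT of the first file are NOT needed.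
Library: `Pool.Agent.helper85.MT.farey_sieve` (large sieve for Farey fractions, constant `5 (N + R²)`), `Pool.Agent.helper85.BVP.ex x = exp(2πix)`, `Pool.Agent.FI.THS` (prime number theorem).
-/

set_option autoImplicit false

open Finset

namespace Pool.Agent.DFO

open Pool.Agent.helper85.BVP (ex)

/-- The exponential sum of a finite set. -/
noncomputable def SE (E : Finset ℕ) (α : ℝ) : ℂ := ∑ n ∈ E, ex ((n : ℝ) * α)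

/-- The primes `p` with `k/2 < p ≤ 3k/4`. -/
def PK (k : ℕ) : Finset ℕ := {p ∈ Icc 1 k | p.Prime ∧ k < 2 * p ∧ 4 * p ≤ 3 * k}

/-- **MSP** (short, medium). uses: nothing. `Z(h) = ∑_{n ∈ E, n % p = h} ex(nα)`, `SE E (α + a/p) = ∑_{h < p} Z(h) ex(ha/p)`, so (orthogonality, Parseval) `∑_{a < p} ‖SE E (α + a/p)‖² = p ∑_h ‖Z(h)‖²`; only `ν = #(E.image (· % p))` of the `Z(h)` are nonzero,
so by Cauchy–Schwarz `‖SE E α‖² ≤ ν ∑_h ‖Z(h)‖²`, so `(p - ν) ‖SE E α‖² ≤ ν ∑_{0 < a < p} ‖SE E (α + a/p)‖²`, and `3ν ≤ 2p`, that is `p - ν ≥ ν/2` (`ν = 0`: `E = ∅`). -/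
def MSP_stmt : Prop := ∀ (p : ℕ) (E : Finset ℕ), p.Prime → 3 * #(E.image (fun n => n % p)) ≤ 2 * p → ∀ α : ℝ,
  ‖SE E α‖ ^ 2 ≤ 2 * ∑ a ∈ Ioo 0 p, ‖SE E (α + (a : ℝ) / p)‖ ^ 2

/-- **MSQ** (medium). uses: `MSP_stmt`. Induction on `T` (insert `p`), `q = ∏ T`: `SE` has period `1` (`SE E (α + m) = SE E α`, `m` an integer); the pairs `(a', b)`, `a' < q'` prime to `q'`, `0 < b < p`, correspond to the residues `(a' p + b q') % (p q')` prime to `p q'` (Chinese remainder theorem),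
and `a'/q' + b/p = (a' p + b q')/(p q')`. An injection of the pairs into the reduced residues is enough (all terms `≥ 0`). `T = ∅`: `q = 1`, `a = 0`. -/
def MSQ_stmt : Prop := ∀ (T E : Finset ℕ), (∀ p ∈ T, p.Prime ∧ 3 * #(E.image (fun n => n % p)) ≤ 2 * p) → ∀ α : ℝ,
  ‖SE E α‖ ^ 2 ≤ 2 ^ #T * ∑ a ∈ (range (∏ p ∈ T, p)).filter (fun a => Nat.Coprime a (∏ p ∈ T, p)), ‖SE E (α + (a : ℝ) / ((∏ p ∈ T, p : ℕ) : ℝ))‖ ^ 2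

/-- **MSL** (medium). uses: `MSQ_stmt` (library `farey_sieve` with `M = 0`, `a n = 1` on `E`, `0` otherwise). `α = 0`, `SE E 0 = #E`. Sum MSQ over all `T ⊆ P` with `u` elements: the products `q = ∏ T ≤ Y^u ≤ R` are different for different `T` (unique factorisation: `T` is the set of the prime
factors of `q`), and the pairs `(q, a)` are in `farey R` (for `q = 1`, `a = 0 ∈ range R`). So `C(#P, u) (#E)² ≤ 2^u 5 (N + R²) #E`; divide by `#E` (`#E = 0`: trivial). -/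
def MSL_stmt : Prop := ∀ (N R Y u : ℕ) (E P : Finset ℕ), 1 ≤ R → E ⊆ Ioc 0 N → (∀ p ∈ P, p.Prime ∧ p ≤ Y ∧ 3 * #(E.image (fun n => n % p)) ≤ 2 * p) → Y ^ u ≤ R →
  ((#P).choose u : ℝ) * #E ≤ 2 ^ u * (5 * ((N : ℝ) + (R : ℝ) ^ 2))

/-- **PRC** (short, medium). uses: nothing (library `THS`, `q = 1`, `x = k`, or Mathlib's Chebyshev functions with a prime number theorem of the library). `θ(3k/4) - θ(k/2) = k/4 + o(k)` and each `log p ≤ log k`, so `#PK k ≥ (1 - o(1)) k/(4 log k)`. -/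
def PRC_stmt : Prop := ∃ k₀ : ℕ, ∀ k : ℕ, k₀ ≤ k → (k : ℝ) ≤ 5 * Real.log k * #(PK k)

/-- **LSB** (medium). uses: `MSL_stmt PRC_stmt`. `E = {n ∈ Ioc 0 X | ¬ Hit n k}`. For `p ∈ PK k`: `k % p = k - p`, so `n % p < p - (k - p) = 2p - k`, the image has at most `2p - k ≤ 2p/3` elements. `L = log X`, `u = ⌊L/(2 log k)⌋₊ ≥ 1` (as `k² ≤ X`), `Y = k`, `R = k^u`, `R² ≤ X`. MSL:
`C(#PK, u) #E ≤ 2^u 10 X`, `C(P, u) ≥ (P/u)^u` (`u ≤ P`; `Nat.pow_le_choose` or so), PRC: `#E ≤ 10 X (2u/P)^u ≤ 10 X (5L/k)^u ≤ 10 X (5 k^(-2/3))^u` as `2u ≤ L/log k` and `L ≤ k^(1/3)`. `5^u ≤ exp(log 5 · L/(2 log k)) ≤ X^(ε/2)` if `log k ≥ log 5/ε` (true for large `X` because `k ≥ L³`);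
`k^u ≥ X^(1/2)/k`, so `k^(-2u/3) ≤ k^(2/3) X^(-1/3)`. Together `#E ≤ 10 X^(2/3+ε/2) k^(2/3) ≤ X^(2/3+ε) k`. -/
def LSB_stmt : Prop := ∀ ε : ℝ, 0 < ε → ∃ X₀ : ℕ, ∀ X : ℕ, X₀ ≤ X → ∀ k : ℕ, Real.log X ^ 3 ≤ (k : ℝ) → k ^ 2 ≤ X → ∀ E : Finset ℕ, (∀ n ∈ E, 0 < n ∧ n ≤ X ∧ ¬ Hit n k) →
  (#E : ℝ) ≤ (X : ℝ) ^ (2 / 3 + ε) * k

/-- **RNK** (medium). uses: nothing. Rankin. We may assume `ε ≤ 1/12`; `σ = 2/3 + ε/2`, `y ≤ L³`, `L = log X`. The number is `≤ (2X)^σ ∑_{m y-smooth, m ≤ 2X} m^(-σ) ≤ (2X)^σ ∏_{p ≤ y} (1 - p^(-σ))⁻¹` (Mathlib: `EulerProduct.prod_primesBelow_tsum_eq_tsum_smoothNumbers`, `Nat.smoothNumbers`; or a direct induction on `y`: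
the `m ≤ 2X` with all primes `≤ y`, finite sums, `∑_{m} m^(-σ) ≤ (1 + p^(-σ) + ...) ∑_{m'} m'^(-σ)`). `p^(-σ) ≤ 2^(-2/3) ≤ 0.63` and `1/(1-t) ≤ exp(3t)` there (`t ≤ 0.63`: `-log(1-t) ≤ t/(1-t) ≤ 3t`), `∑_{p ≤ y} p^(-σ) ≤ ∑_{n ≤ y} n^(-σ) ≤ y^(1-σ)/(1-σ) + 1 ≤ 4 L^(3(1-σ)) + 1 = 4 L^(1-3ε/2) + 1`.
So the product is `≤ exp(3 + 12 L^(1-3ε/2)) ≤ X^(ε/4)` for large `X`, and `2^σ ≤ X^(ε/4)`. -/
def RNK_stmt : Prop := ∀ ε : ℝ, 0 < ε → ∃ X₀ : ℕ, ∀ X : ℕ, X₀ ≤ X → ∀ y : ℕ, (y : ℝ) ≤ Real.log X ^ 3 →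
  ∀ E : Finset ℕ, (∀ m ∈ E, 0 < m ∧ m ≤ 2 * X ∧ ∀ p : ℕ, p.Prime → p ∣ m → p ≤ y) → (#E : ℝ) ≤ (X : ℝ) ^ (2 / 3 + ε)

/-- The pairs with defined deficiency, `n ≤ X`. -/
def Pairs (X : ℕ) : Set (ℕ × ℕ) := {z | 1 ≤ z.2 ∧ z.2 ≤ z.1 ∧ z.1 ≤ X ∧ ∃ a b : ℕ → ℕ, Good z.1 z.2 a b}

/-- **CNL** (medium). uses: `NCY_stmt LSB_stmt SUP_stmt`. Given `ε`, put `δ = min (ε/4) (1/2)`, `A = ⌈1/δ⌉₊ + 1`. A pair has `¬ Hit n k` (NCY with `e = 1`). `k > X^δ` and `k ≥ k₀(A)` (true for large `X`): `n ≤ X < k^A`, SUP gives `Hit`: no such pair. `k ≤ X^δ`: `k² ≤ X`, LSB with `ε/4` for each `k`, sum over `k ≤ X^δ`: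
`≤ X^δ X^(2/3+ε/4) X^δ ≤ X^(2/3+ε)`. `X < X₀`: the number of all pairs is `≤ X₀²`, absorbed in the constant (for `X = 0` the set is empty). The set is finite: a subset of `Iic X ×ˢ Iic X`. -/
def CNL_stmt : Prop := ∀ ε : ℝ, 0 < ε → ∃ C : ℝ, ∀ X : ℕ,
  (({z ∈ Pairs X | Real.log X ^ 3 ≤ (z.2 : ℝ)}.ncard : ℕ) : ℝ) ≤ C * (X : ℝ) ^ (2 / 3 + ε)

/-- **CNS** (short, medium). uses: `RNK_stmt` (and the remark that `b j = 1` gives `n + j = a_j ∣ k!`, so all prime factors of `n + j` are `≤ k`). `k < L³`, `L = log X`: the pair `(n, k)` is determined by `(k, j, m)`, `m = n + j ≤ 2X`, all primes of `m` are `≤ k ≤ ⌊L³⌋`; the number is `≤ L³ L³ X^(2/3+ε/2) ≤ X^(2/3+ε)` for large `X`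
(RNK with `ε/2`, `y = ⌊L³⌋₊`). Small `X`: constant. -/
def CNS_stmt : Prop := ∀ ε : ℝ, 0 < ε → ∃ C : ℝ, ∀ X : ℕ,
  (({z : ℕ × ℕ | 1 ≤ z.2 ∧ z.2 ≤ z.1 ∧ z.1 ≤ X ∧ (z.2 : ℝ) < Real.log X ^ 3 ∧ ∃ a b : ℕ → ℕ, Good z.1 z.2 a b ∧ ∃ j ∈ Icc 1 z.2, b j = 1}.ncard : ℕ) : ℝ) ≤
    C * (X : ℝ) ^ (2 / 3 + ε)

/-- **CNT** (short). uses: `CNL_stmt CNS_stmt`. The union of the two sets. -/
def CNT_stmt : Prop := ∀ ε : ℝ, 0 < ε → ∃ C : ℝ, ∀ X : ℕ,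
  (({z : ℕ × ℕ | 1 ≤ z.2 ∧ z.2 ≤ z.1 ∧ z.1 ≤ X ∧ ∃ a b : ℕ → ℕ, Good z.1 z.2 a b ∧ ∃ j ∈ Icc 1 z.2, b j = 1}.ncard : ℕ) : ℝ) ≤ C * (X : ℝ) ^ (2 / 3 + ε) ∧
  (({z : ℕ × ℕ | Real.log X ^ 3 ≤ (z.2 : ℝ) ∧ 1 ≤ z.2 ∧ z.2 ≤ z.1 ∧ z.1 ≤ X ∧ ∃ a b : ℕ → ℕ, Good z.1 z.2 a b}.ncard : ℕ) : ℝ) ≤ C * (X : ℝ) ^ (2 / 3 + ε)

end Pool.Agent.DFO
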