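import Mathlib
import Pool.Agent.helper7.DF.Spec2

/-!
# Project DF (MP_60f069_nt), third part: a real parameter `c > 1` in the place of `3` (helper7)

THEOREM. Let `c > 1`, `ε > 0`. The number of the pairs `(n, k)`, `1 ≤ k ≤ n ≤ X`, with defined deficiency and `k ≥ (log X)^c` is `O(X^(1/2 + 1/(2c) + ε))`; the number of those of deficiency at least one and `k ≤ (log X)^c` is `O(X^(1 - 1/c + ε))`.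
(`c = 3`: both exponents are `2/3 + ε`.) The rows LSC, RNC, CLC, CSC are the rows LSB, RNK, CNL, CNS with `c` in the place of `3`: adapt the landed files (helper23 LSB, helper61 RNK, helper58 CNL, helper76 or helper58 CNS). The powers are real powers.
-/

set_option autoImplicit false

open Finset

namespace Pool.Agent.DFO

/-- **LSC** (medium). uses: `MSL_stmt PRC_stmt`. As LSB: `#E ≤ 10 X (2u/#PK)^u`, `2u/#PK ≤ 5 L/k ≤ 5 k^(1/c - 1)`; `u ≤ #PK` because `L ≤ (2/5) k` (`k ≥ L^c`, `c > 1`, `X` large); `k^u ≥ X^(1/2)/k`, so `k^(-(1-1/c)u) ≤ k^(1-1/c) X^(-(1-1/c)/2)`;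
`5^u ≤ X^(ε/2)`, `10 ≤ X^(ε/2)`; together `#E ≤ X^(1/2 + 1/(2c) + ε) k`. -/
def LSC_stmt : Prop := ∀ c ε : ℝ, 1 < c → 0 < ε → ∃ X₀ : ℕ, ∀ X : ℕ, X₀ ≤ X → ∀ k : ℕ, Real.log X ^ c ≤ (k : ℝ) → k ^ 2 ≤ X → ∀ E : Finset ℕ, (∀ n ∈ E, 0 < n ∧ n ≤ X ∧ ¬ Hit n k) →
  (#E : ℝ) ≤ (X : ℝ) ^ (1 / 2 + 1 / (2 * c) + ε) * k

/-- **RNC** (medium). uses: nothing. As RNK with `σ = 1 - 1/c + η`, `η = min (ε/2) (1/(2c))`, so `σ > 0`, `1 - σ = 1/c - η ≥ 1/(2c)`; `t = p^(-σ) ≤ 2^(-σ) < 1`, `1/(1-t) ≤ exp(t/(1-t)) ≤ exp(K t)`, `K = 1/(1 - 2^(-σ))`;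
`∑_{p ≤ y} p^(-σ) ≤ 1 + y^(1-σ)/(1-σ) ≤ 1 + 2c L^(c(1-σ)) = 1 + 2c L^(1 - cη)`, so the product is `≤ exp(K (1 + 2c L^(1-cη))) ≤ X^(ε/4)` for large `X`; `2^σ ≤ 2 ≤ X^(ε/4)`. -/
def RNC_stmt : Prop := ∀ c ε : ℝ, 1 < c → 0 < ε → ∃ X₀ : ℕ, ∀ X : ℕ, X₀ ≤ X → ∀ y : ℕ, (y : ℝ) ≤ Real.log X ^ c →
  ∀ E : Finset ℕ, (∀ m ∈ E, 0 < m ∧ m ≤ 2 * X ∧ ∀ p : ℕ, p.Prime → p ∣ m → p ≤ y) → (#E : ℝ) ≤ (X : ℝ) ^ (1 - 1 / c + ε)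

/-- **CLC** (medium). uses: `NCY_stmt LSC_stmt SUP_stmt`. As CNL (`δ = min (ε/4) (1/2)`, LSC with `ε/4`). -/
def CLC_stmt : Prop := ∀ c ε : ℝ, 1 < c → 0 < ε → ∃ C : ℝ, ∀ X : ℕ,
  (({z ∈ Pairs X | Real.log X ^ c ≤ (z.2 : ℝ)}.ncard : ℕ) : ℝ) ≤ C * (X : ℝ) ^ (1 / 2 + 1 / (2 * c) + ε)

/-- **CSC** (short, medium). uses: `RNC_stmt`. As CNS (`k ≤ L^c`: `y = ⌊L^c⌋₊`; the number is `≤ L^c L^c X^(1 - 1/c + ε/2)`; note `≤` in the place of `<`). -/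
def CSC_stmt : Prop := ∀ c ε : ℝ, 1 < c → 0 < ε → ∃ C : ℝ, ∀ X : ℕ,
  (({z : ℕ × ℕ | 1 ≤ z.2 ∧ z.2 ≤ z.1 ∧ z.1 ≤ X ∧ (z.2 : ℝ) ≤ Real.log X ^ c ∧ ∃ a b : ℕ → ℕ, Good z.1 z.2 a b ∧ ∃ j ∈ Icc 1 z.2, b j = 1}.ncard : ℕ) : ℝ) ≤
    C * (X : ℝ) ^ (1 - 1 / c + ε)

end Pool.Agent.DFO
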