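import Mathlib
import Pool.Agent.helper7.DF.Spec

set_option autoImplicit false

open Finset

namespace Pool.Agent.DFO

open Pool.Agent.LDH (ee)

private lemma TID7_norm (s : Finset ℕ) (f : ℕ → ℝ) : ‖∑ l ∈ s, ee (f l)‖ ≤ #s := by
  refine (norm_sum_le _ _).trans ?_
  have h : ∀ l ∈ s, ‖ee (f l)‖ ≤ 1 := by
    intro l _
    unfold Pool.Agent.LDH.ee
    rw [Complex.norm_exp_ofReal_mul_I]
  calc ∑ l ∈ s, ‖ee (f l)‖ ≤ ∑ _l ∈ s, (1 : ℝ) := Finset.sum_le_sum h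
    _ = #s := by rw [Finset.sum_const, nsmul_eq_mul, mul_one]

theorem TID (hKSM : KSM_stmt) : TID_stmt := by
  intro A
  obtain ⟨δ', C', hδ'0, hδ'1, hC', hK⟩ := hKSM (8 * A)
  refine ⟨δ' / 4, max 16 (C' + 1), by linarith, by linarith, ?_, ?_⟩
  · exact le_trans (by norm_num) (le_max_left _ _)
  intro k d a b x hd hdk hab hbk hka hkx hxA
  have hd0 : (0 : ℝ) < d := by exact_mod_cast hd
  rcases Nat.eq_zero_or_pos k with hk0 | hk0
  · have ha : a = 0 := by omega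
    have hb : b = 0 := by omega
    subst ha hb hk0
    simp
  have hkR : (1 : ℝ) ≤ k := by exact_mod_cast hk0
  have hkp : (0 : ℝ) < k := by linarith
  have hx0 : 0 < x := by linarith
  have hsum0 : (0 : ℝ) ≤ (k : ℝ) / x + (k : ℝ) ^ (-(δ' / 4)) :=
    add_nonneg (div_nonneg hkp.le hx0.le) (Real.rpow_nonneg hkp.le _)
  have hkd0 : (0 : ℝ) ≤ (k : ℝ) / d := div_nonneg hkp.le hd0.le
  have hbd : ((b / d : ℕ) : ℝ) ≤ (k : ℝ) / d :=
    (Nat.cast_div_le).trans (div_le_div_of_nonneg_right (by exact_mod_cast hbk) hd0.le)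
  rcases lt_or_ge k 65536 with hsmall | hbig
  · have h1 : ‖∑ l ∈ Ioc (a / d) (b / d), ee (x / (d * l))‖ ≤ (k : ℝ) / d := by
      refine (TID7_norm _ _).trans ?_
      rw [Nat.card_Ioc]
      refine le_trans ?_ hbd
      exact_mod_cast Nat.sub_le _ _
    have h2 : (1 : ℝ) / 16 ≤ (k : ℝ) ^ (-(δ' / 4)) := by
      have h3 : (65536 : ℝ) ^ (-(1 / 4) : ℝ) = 1 / 16 := by
        have : (65536 : ℝ) = 16 ^ (4 : ℝ) := by norm_num
        rw [this, ← Real.rpow_mul (by norm_num)]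
        norm_num
      calc (1 : ℝ) / 16 = (65536 : ℝ) ^ (-(1 / 4) : ℝ) := h3.symm
        _ ≤ (65536 : ℝ) ^ (-(δ' / 4)) := Real.rpow_le_rpow_of_exponent_le (by norm_num) (by linarith)
        _ ≤ (k : ℝ) ^ (-(δ' / 4)) :=
          Real.rpow_le_rpow_of_nonpos hkp (by exact_mod_cast hsmall.le) (by linarith)
    calc ‖∑ l ∈ Ioc (a / d) (b / d), ee (x / (d * l))‖ ≤ (k : ℝ) / d := h1
      _ = 16 * ((k : ℝ) / d) * (1 / 16) := by ring
      _ ≤ max 16 (C' + 1) * ((k : ℝ) / d) * ((k : ℝ) / x + (k : ℝ) ^ (-(δ' / 4))) := by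
        refine mul_le_mul (mul_le_mul_of_nonneg_right (le_max_left _ _) hkd0) ?_ (by norm_num)
          (mul_nonneg (le_trans (by norm_num) (le_max_left _ _)) hkd0)
        have : 0 ≤ (k : ℝ) / x := div_nonneg hkp.le hx0.le
        linarith
  -- large k
  set q : ℝ := (k : ℝ) ^ (1 / 8 : ℝ) with hq
  have hkbig : (65536 : ℝ) ≤ k := by exact_mod_cast hbig
  have hq4 : 4 ≤ q := by
    have h3 : (65536 : ℝ) ^ (1 / 8 : ℝ) = 4 := by
      have : (65536 : ℝ) = 4 ^ (8 : ℝ) := by norm_num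
      rw [this, ← Real.rpow_mul (by norm_num)]
      norm_num
    rw [← h3, hq]
    exact Real.rpow_le_rpow (by norm_num) hkbig (by norm_num)
  have hq0 : 0 < q := by linarith
  have hq2 : (k : ℝ) ^ (1 / 4 : ℝ) = q ^ 2 := by
    rw [hq, ← Real.rpow_natCast, ← Real.rpow_mul hkp.le]
    norm_num
  have hq8 : (k : ℝ) = q ^ 8 := by
    rw [hq, ← Real.rpow_natCast, ← Real.rpow_mul hkp.le]
    norm_num
  have hkdq : q ^ 2 ≤ (k : ℝ) / d := by
    rw [le_div_iff₀ hd0]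
    calc q ^ 2 * d ≤ q ^ 2 * (k : ℝ) ^ (3 / 4 : ℝ) := mul_le_mul_of_nonneg_left hdk (by positivity)
      _ = (k : ℝ) ^ (1 / 4 : ℝ) * (k : ℝ) ^ (3 / 4 : ℝ) := by rw [hq2]
      _ = k := by
        rw [← Real.rpow_add hkp]
        norm_num
  set N : ℕ := a / d with hN
  have haN : (a : ℝ) < (N + 1) * d := by
    have : a < (N + 1) * d := by
      rw [hN, mul_comm]
      exact Nat.lt_mul_div_succ a hd
    exact_mod_cast this
  have haR : (k : ℝ) ≤ 2 * a := by exact_mod_cast hka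
  have hNq : q ≤ N := by
    have h1 : (k : ℝ) / d < 2 * (N + 1) := by
      rw [div_lt_iff₀ hd0]
      nlinarith
    have h2 : q ^ 2 < 2 * (N + 1) := lt_of_le_of_lt hkdq h1
    nlinarith
  have hN1 : 1 ≤ N := by
    have : (1 : ℝ) ≤ N := by linarith
    exact_mod_cast this
  have hNb : N ≤ b / d := Nat.div_le_div_right hab
  have hb2 : b / d ≤ 2 * N + 1 := by
    have h1 : b < (2 * N + 2) * d := by
      have h2 : a < (N + 1) * d := by exact_mod_cast haN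
      have h3 : b ≤ 2 * a := hbk.trans hka
      nlinarith
    have := (Nat.div_lt_iff_lt_mul hd).2 h1
    omega
  have hNk : (N : ℝ) ≤ (k : ℝ) / d :=
    (by exact_mod_cast hNb : (N : ℝ) ≤ ((b / d : ℕ) : ℝ)).trans hbd
  set b' : ℕ := min (b / d) (2 * N) with hb'
  have hNb' : N ≤ b' := le_min hNb (by omega)
  have hy1 : (N : ℝ) ≤ x / d := hNk.trans (div_le_div_of_nonneg_right hkx hd0.le)
  have hy2 : x / d ≤ (N : ℝ) ^ (8 * A) := by
    calc x / d ≤ x := div_le_self hx0.le (by exact_mod_cast hd)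
      _ ≤ (k : ℝ) ^ A := hxA
      _ = (q ^ 8) ^ A := by rw [← hq8]
      _ = q ^ (8 * A) := by rw [← pow_mul]
      _ ≤ (N : ℝ) ^ (8 * A) := pow_le_pow_left₀ hq0.le hNq _
  have hmain := hK N N b' (x / d) hN1 le_rfl hNb' (min_le_right _ _) hy1 hy2
  have hsplit : ‖∑ l ∈ Ioc N (b / d), ee (x / (d * l))‖ ≤ ‖∑ l ∈ Ioc N b', ee (x / d / l)‖ + 1 := by
    have h1 : ∑ l ∈ Ioc N (b / d), ee (x / (d * l)) =
        ∑ l ∈ Ioc N b', ee (x / d / l) + ∑ l ∈ Ioc b' (b / d), ee (x / (d * l)) := by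
      rw [← Finset.sum_Ioc_consecutive _ hNb' (min_le_left _ _)]
      congr 1
      refine Finset.sum_congr rfl fun l _ => ?_
      rw [div_div]
    rw [h1]
    refine (norm_add_le _ _).trans (add_le_add le_rfl ?_)
    refine (TID7_norm _ _).trans ?_
    rw [Nat.card_Ioc]
    have : b / d - b' ≤ 1 := by
      rw [hb']
      omega
    exact_mod_cast this
  have hkd1 : (1 : ℝ) ≤ (k : ℝ) / d := by nlinarith
  have e1 : (N : ℝ) ^ 2 / (x / d) ≤ (k : ℝ) / d * (k / x) := by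
    calc (N : ℝ) ^ 2 / (x / d) ≤ ((k : ℝ) / d) ^ 2 / (x / d) :=
          div_le_div_of_nonneg_right (pow_le_pow_left₀ (Nat.cast_nonneg N) hNk 2) (by positivity)
      _ = (k : ℝ) / d * (k / x) := by
        field_simp
  have e2 : (N : ℝ) ^ (1 - δ') ≤ (k : ℝ) / d * (k : ℝ) ^ (-(δ' / 4)) := by
    calc (N : ℝ) ^ (1 - δ') ≤ ((k : ℝ) / d) ^ (1 - δ') :=
          Real.rpow_le_rpow (Nat.cast_nonneg N) hNk (by linarith)
      _ = (k : ℝ) / d * ((k : ℝ) / d) ^ (-δ') := by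
        rw [sub_eq_add_neg, Real.rpow_add (by linarith), Real.rpow_one]
      _ ≤ (k : ℝ) / d * (q ^ 2) ^ (-δ') :=
        mul_le_mul_of_nonneg_left (Real.rpow_le_rpow_of_nonpos (by positivity) hkdq (by linarith)) hkd0
      _ = (k : ℝ) / d * (k : ℝ) ^ (-(δ' / 4)) := by
        rw [← hq2, ← Real.rpow_mul hkp.le]
        congr 2
        ring
  have e3 : (1 : ℝ) ≤ (k : ℝ) / d * (k : ℝ) ^ (-(δ' / 4)) := by
    calc (1 : ℝ) = (k : ℝ) ^ (1 / 4 : ℝ) * (k : ℝ) ^ (-(1 / 4) : ℝ) := by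
          rw [← Real.rpow_add hkp]
          norm_num
      _ = q ^ 2 * (k : ℝ) ^ (-(1 / 4) : ℝ) := by rw [hq2]
      _ ≤ (k : ℝ) / d * (k : ℝ) ^ (-(δ' / 4)) :=
        mul_le_mul hkdq (Real.rpow_le_rpow_of_exponent_le hkR (by linarith)) (Real.rpow_nonneg hkp.le _) hkd0
  have e4 : (0 : ℝ) ≤ (k : ℝ) / d * (k / x) := mul_nonneg hkd0 (div_nonneg hkp.le hx0.le)
  calc ‖∑ l ∈ Ioc N (b / d), ee (x / (d * l))‖ ≤ C' * ((N : ℝ) ^ 2 / (x / d) + (N : ℝ) ^ (1 - δ')) + 1 :=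
        hsplit.trans (add_le_add hmain le_rfl)
    _ ≤ C' * ((k : ℝ) / d * (k / x) + (k : ℝ) / d * (k : ℝ) ^ (-(δ' / 4))) +
        ((k : ℝ) / d * (k / x) + (k : ℝ) / d * (k : ℝ) ^ (-(δ' / 4))) :=
      add_le_add (mul_le_mul_of_nonneg_left (add_le_add e1 e2) (by linarith)) (by linarith)
    _ = (C' + 1) * ((k : ℝ) / d) * ((k : ℝ) / x + (k : ℝ) ^ (-(δ' / 4))) := by ring
    _ ≤ max 16 (C' + 1) * ((k : ℝ) / d) * ((k : ℝ) / x + (k : ℝ) ^ (-(δ' / 4))) :=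
      mul_le_mul_of_nonneg_right (mul_le_mul_of_nonneg_right (le_max_right _ _) hkd0) hsum0

end Pool.Agent.DFO
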