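import Mathlib
import Pool.Agent.helper7.DF.Spec3
import Pool.Agent.helper15.DF.NCY
import Pool.Agent.helper60.DF.SML
import Pool.Agent.helper78.DF.IDD
import Pool.Agent.helper63.DF.KSM
import Pool.Agent.helper27.DF.LGA
import Pool.Agent.helper87.DF.PRS
import Pool.Agent.helper22.DF.TII
import Pool.Agent.helper51.DF.VAU
import Pool.Agent.helper11.DF.MAI
import Pool.Agent.helper99.DF.SUP
import Pool.Agent.helper47.DF.MSP
import Pool.Agent.helper30.DF.MSQ
import Pool.Agent.helper96.DF.MSL
import Pool.Agent.helper29.DF.PRC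
import Pool.Agent.helper23.DF.LSC
import Pool.Agent.helper58.DF.CLC
import Pool.Agent.helper76.DF.CSC
import Pool.Agent.helper7.DF.TID
import Pool.Agent.helper61.DF.RNC

/-!
# Project DF (MP_60f069_nt): assembly (helper7)
-/

set_option autoImplicit false

namespace Pool.Agent.DFO

/-- No pairs with defined deficiency and `n ≤ k^A`, `k` large. -/
theorem all_SUP : SUP_stmt := by
  have hKSM : KSM_stmt := KSM IDD
  have hTID : TID_stmt := TID hKSM
  have hTII : TII_stmt := TII (PRS hKSM)
  exact SUP SML (MAI (VAU hTID LGA hTII))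

/-- Defined deficiency, `k ≥ (log X)^c`. -/
theorem all_CLC : CLC_stmt := CLC NCY (LSC (MSL (MSQ MSP)) PRC) all_SUP

/-- Positive deficiency, `k ≤ (log X)^c`. -/
theorem all_CSC : CSC_stmt := CSC RNC

end Pool.Agent.DFO
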